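import Pool.Agent.H547_g.Ob
import Mathlib

/-!
# Hartshorne's conjecture for Fermat hypersurfaces in codimensions up to `(n + 2) / d`

Let `X` be the Fermat hypersurface `x_0 ^ d + ... + x_(n+1) ^ d = 0` of degree `d` and dimension `n`
over the complex numbers. **Theorem.** For all `d ≥ 1`, all `n` and all `i` with

  `i < n / 2` and `i < (n + 2) / d + 1`

every cycle of codimension `i` on `X`, modulo rational equivalence and with rational coefficients, is a
multiple of `h ^ i`: `A ^ i (X) = ℚ h ^ i`, as conjectured by Hartshorne. So for the Fermat hypersurfaces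
of degree `d` the conjecture holds in the codimensions up to `n / d`, the fraction `2 / d` of the range
`i < n / 2` of the conjecture, for all `n`. (For arbitrary hypersurfaces the known bounds on `i` are of
the order of the root of order `d - 1` of `n`.)

Let `𝒞` be the category of the Chow motives over the complex numbers with coefficients in the field `K`
of the roots of unity of order `d`, let `L` be the Lefschetz motive and let `CH_a (Y) = Hom(L ^ a, Y)`.
The motive of `X` is the direct sum of the `L ^ k`, `0 ≤ k ≤ n` (the classes of the linear sections), and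
of the motives of rank one `V(s)`, indexed by the tuples `s` of `n + 2` nonzero residues modulo `d` with
sum zero, on which the roots of unity act by the characters in `s`; they are contained in `h ^ n (X)`.

*The hypotheses in Lean.* `FermatMotives` lists the known facts on the `V(s)`:

* `join`: the inductive structure of Fermat varieties (Shioda, Katsura);
* `cycles`: Let `N` be the product of the lines `V(e)`, `e ∈ E`, and `w` the sum of the numbers
  `|e| - 2`, so that `N` is a direct summand of `h ^ w (Y)`, where `Y` is a product of Fermat varieties,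
  of dimension `w`. The cycles of codimension `c` on `N` vanish if `c < 0`, if `c = 0` and `w > 0`, and if
  `c = 1` and `w ≥ 3` (the group `Pic (Y) ⊗ K` is determined by `h ^ 1 (Y)` and `h ^ 2 (Y)`). Here
  `Hom(L ^ a, L ^ b ⊗ N)` are the cycles of codimension `c = w + b - a` on `N`.

The proof. By an argument of Davenport (partial sums) every tuple `s` of `n + 2` residues modulo `d` with
sum zero is a union of at least `(n + 2) / d` nonempty tuples `s_1, ..., s_k` with sum zero. By the
inductive structure `V(s) = L ^ (k - 1) ⊗ V(s_1) ⊗ ... ⊗ V(s_k)`, so the cycles of codimension `i` on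
`V(s)` are the cycles of codimension `i - k + 1` on a motive of weight `w = n + 2 - 2 k`. Since `k ≥ i`
this codimension is at most one, and `w` is larger than twice the codimension because `i < n / 2`.
-/

set_option autoImplicit false

namespace Pool.Agent.Results.MP_4be043_ag.FermatHypersurfaces

open CategoryTheory MonoidalCategory Pool.Agent.H547_g

universe v u

section defs

/-- A character of degree `d`: a nonempty multiset `s` of nonzero residues modulo `d` with sum zero. It
gives the line `V(s)` of the Fermat variety of degree `d` and dimension `|s| - 2`. -/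
def IsCharacter (d : ℕ) (s : Multiset (ZMod d)) : Prop := s ≠ 0 ∧ (0 : ZMod d) ∉ s ∧ s.sum = 0

/-- The weight of the product of the lines `V(e)`, `e ∈ E`: the sum of the `|e| - 2`. -/
def weight {d : ℕ} (E : List (Multiset (ZMod d))) : ℕ := (E.map fun e => Multiset.card e - 2).sum

/-- The Lefschetz motive `L` and the lines `V(s)` of Fermat varieties of degree `d` in the category `𝒞` of
Chow motives. The fields are known theorems. -/
structure FermatMotives (d : ℕ) (𝒞 : Type u) [Category.{v} 𝒞] [Preadditive 𝒞]
    [MonoidalCategory 𝒞] where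
  /-- the Lefschetz motive -/
  L : 𝒞
  /-- its dual -/
  T : 𝒞
  dual : Nonempty (L ⊗ T ≅ 𝟙_ 𝒞)
  /-- the lines -/
  V : Multiset (ZMod d) → 𝒞
  /-- The inductive structure of Fermat varieties. -/
  join : ∀ s t : Multiset (ZMod d), IsCharacter d s → IsCharacter d t →
    Nonempty (V (s + t) ≅ L ⊗ (V s ⊗ V t))
  /-- The Chow groups of a point. -/
  point : ∀ a b : ℕ, a ≠ b → ∀ z : pow L a ⟶ pow L b, z = 0
  /-- There are no cycles of negative codimension, and no cycles of codimension zero or one on the
  motives of weight at least one respectively three. -/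
  cycles : ∀ (a b : ℕ) (E : List (Multiset (ZMod d))), (∀ e ∈ E, IsCharacter d e) →
    (weight E + b < a ∨ (weight E + b = a ∧ 1 ≤ weight E) ∨
      (weight E + b = a + 1 ∧ 3 ≤ weight E)) →
    ∀ z : pow L a ⟶ pow L b ⊗ tens (E.map V), z = 0

/-- The decomposition of the motive `X` of the Fermat hypersurface of degree `d` and dimension `n`: it is
the direct sum of the `L ^ k`, `k ≤ n`, and of lines `V(s)` of characters with `n + 2` entries. -/
structure Decomposition {d : ℕ} {𝒞 : Type u} [Category.{v} 𝒞] [Preadditive 𝒞] [MonoidalCategory 𝒞]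
    (D : FermatMotives d 𝒞) (n : ℕ) (X : 𝒞) where
  /-- the projection to `L ^ k` -/
  p : ∀ k : Fin (n + 1), X ⟶ pow D.L k
  /-- the class of a linear section of dimension `k` -/
  q : ∀ k : Fin (n + 1), pow D.L k ⟶ X
  /-- the index set of the lines -/
  ι : Type
  [fin : Fintype ι]
  /-- the characters -/
  s : ι → Multiset (ZMod d)
  char : ∀ j, IsCharacter d (s j)
  card : ∀ j, Multiset.card (s j) = n + 2
  /-- the projections to the lines -/
  π : ∀ j, X ⟶ D.V (s j)
  /-- the inclusions of the lines -/
  κ : ∀ j, D.V (s j) ⟶ X
  id : 𝟙 X = ∑ k, p k ≫ q k + ∑ j, π j ≫ κ j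

attribute [instance] Decomposition.fin

end defs

section davenport

variable {d : ℕ}

/-- **Davenport.** Among `d` residues there are some with sum zero. -/
lemma exists_block [NeZero d] (l : List (ZMod d)) (hl : l.length = d) :
    ∃ t : Multiset (ZMod d), t ≠ 0 ∧ t ≤ (l : Multiset (ZMod d)) ∧ t.sum = 0 := by
  classical
  have hcard : Fintype.card (ZMod d) < Fintype.card (Fin (d + 1)) := by
    rw [ZMod.card, Fintype.card_fin]
    omega
  obtain ⟨x, y, hxy, hS⟩ := Fintype.exists_ne_map_eq_of_card_lt
    (fun j : Fin (d + 1) => (l.take j).sum) hcard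
  wlog hlt : x < y generalizing x y
  · exact this y x hxy.symm hS.symm (lt_of_le_of_ne (not_lt.mp hlt) hxy.symm)
  have h1 : (l.take y).sum = (l.take x).sum + ((l.take y).drop x).sum := by
    have h2 := List.take_append_drop (x : ℕ) (l.take y)
    have h3 : (l.take y).take x = l.take x := by
      rw [List.take_take, min_eq_left (show (x : ℕ) ≤ y from le_of_lt hlt)]
    rw [h3] at h2
    conv_lhs => rw [← h2]
    rw [List.sum_append]
  have hS' : (l.take x).sum = (l.take y).sum := hS
  refine ⟨((l.take y).drop x : List (ZMod d)), ?_, ?_, ?_⟩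
  · intro h
    rw [Multiset.coe_eq_zero] at h
    have h2 := congrArg List.length h
    rw [List.length_drop, List.length_take, List.length_nil] at h2
    have h3 : (x : ℕ) < y := hlt
    have h4 := y.isLt
    omega
  · rw [Multiset.coe_le]
    exact ((List.drop_sublist _ _).trans (List.take_sublist _ _)).subperm
  · rw [Multiset.sum_coe]
    rw [hS'] at h1
    exact (left_eq_add.mp h1)

lemma weight_cons (s : Multiset (ZMod d)) (E : List (Multiset (ZMod d))) :
    weight (s :: E) = Multiset.card s - 2 + weight E := by
  unfold weight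
  rw [List.map_cons, List.sum_cons]

lemma card_ge_two {s : Multiset (ZMod d)} (h : IsCharacter d s) : 2 ≤ Multiset.card s := by
  by_contra h1
  push Not at h1
  have h2 : Multiset.card s ≠ 0 := fun h' => h.1 (Multiset.card_eq_zero.mp h')
  obtain ⟨a, ha⟩ := Multiset.card_eq_one.mp (by omega : Multiset.card s = 1)
  have h3 := h.2.2
  rw [ha, Multiset.sum_singleton] at h3
  exact h.2.1 (by rw [ha, h3]; simp)

/-- **Decomposition into blocks.** -/
lemma exists_blocks [NeZero d] : ∀ (n : ℕ) (s : Multiset (ZMod d)), Multiset.card s = n →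
    (0 : ZMod d) ∉ s → s.sum = 0 → ∃ E : List (Multiset (ZMod d)), (∀ e ∈ E, IsCharacter d e) ∧
      s = (E : Multiset (Multiset (ZMod d))).join ∧ n ≤ d * E.length ∧
      weight E + 2 * E.length = n := by
  intro n
  induction n using Nat.strong_induction_on with
  | _ n ih =>
    intro s hn h0 hs
    by_cases hs0 : s = 0
    · subst hs0
      refine ⟨[], by simp, by simp, ?_, ?_⟩
      · rw [← hn]
        simp
      · rw [← hn]
        simp [weight]
    by_cases hnd : n ≤ d
    · have hc : IsCharacter d s := ⟨hs0, h0, hs⟩
      have h2 := card_ge_two hc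
      refine ⟨[s], by simpa using hc, by simp, by simpa using hnd, ?_⟩
      rw [weight_cons]
      simp only [weight, List.map_nil, List.sum_nil, List.length_cons, List.length_nil]
      omega
    · -- a zero sum block
      obtain ⟨l, rfl⟩ : ∃ l : List (ZMod d), s = (l : Multiset (ZMod d)) :=
        ⟨s.toList, (Multiset.coe_toList s).symm⟩
      have hll : l.length = n := hn
      obtain ⟨t, ht0, htl, hts⟩ := exists_block (l.take d) (by
        rw [List.length_take]
        omega)
      have htl' : t ≤ (l : Multiset (ZMod d)) := htl.trans (by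
        rw [Multiset.coe_le]
        exact (List.take_sublist _ _).subperm)
      have htd : Multiset.card t ≤ d := by
        have h3 := Multiset.card_le_card htl
        rw [Multiset.coe_card, List.length_take] at h3
        omega
      have htc : IsCharacter d t := ⟨ht0, fun h => h0 (Multiset.mem_of_le htl' h), hts⟩
      have ht2 := card_ge_two htc
      obtain ⟨r, hr⟩ := Multiset.le_iff_exists_add.mp htl'
      have hcr : Multiset.card t + Multiset.card r = n := by
        rw [← Multiset.card_add, ← hr]
        exact hll
      obtain ⟨E, hE1, hE2, hE3, hE4⟩ := ih (Multiset.card r) (by omega) r rfl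
        (fun h => h0 (by rw [hr]; exact Multiset.mem_add.mpr (Or.inr h))) (by
          rw [hr, Multiset.sum_add, hts, zero_add] at hs
          exact hs)
      refine ⟨t :: E, ?_, ?_, ?_, ?_⟩
      · intro e he
        rcases List.mem_cons.mp he with rfl | he
        · exact htc
        · exact hE1 e he
      · rw [← Multiset.cons_coe, Multiset.join_cons, ← hE2, hr]
      · rw [List.length_cons, mul_add, mul_one]
        omega
      · rw [weight_cons, List.length_cons]
        omega

end davenport

section proof

variable {d : ℕ} {𝒞 : Type u} [Category.{v} 𝒞] [Preadditive 𝒞] [MonoidalCategory 𝒞]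

lemma isUnit_L [BraidedCategory 𝒞] (D : FermatMotives d 𝒞) : IsUnit (ob D.L) := by
  have h := ob_eq.mpr D.dual
  rw [ob_tensor, ob_unit] at h
  exact IsUnit.of_mul_eq_one _ h

/-- the line of a union of blocks -/
lemma ob_blocks [BraidedCategory 𝒞] (D : FermatMotives d 𝒞) (E : List (Multiset (ZMod d)))
    (hE : ∀ e ∈ E, IsCharacter d e) (hne : E ≠ []) :
    IsCharacter d (E : Multiset (Multiset (ZMod d))).join ∧
      ob (D.V (E : Multiset (Multiset (ZMod d))).join) =
        ob D.L ^ (E.length - 1) * ob (tens (E.map D.V)) := by
  induction E with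
  | nil => exact absurd rfl hne
  | cons s E ih =>
    have hs := hE s List.mem_cons_self
    rw [← Multiset.cons_coe, Multiset.join_cons]
    by_cases hE0 : E = []
    · subst hE0
      refine ⟨by simpa using hs, ?_⟩
      rw [ob_tens]
      simp
    · obtain ⟨h1, h2⟩ := ih (fun e he => hE e (List.mem_cons_of_mem _ he)) hE0
      have hlen : 1 ≤ E.length := List.length_pos_iff.mpr hE0
      refine ⟨⟨?_, ?_, ?_⟩, ?_⟩
      · intro h
        rw [← Multiset.card_eq_zero, Multiset.card_add] at h
        exact hs.1 (Multiset.card_eq_zero.mp (by omega))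
      · rw [Multiset.mem_add, not_or]
        exact ⟨hs.2.1, h1.2.1⟩
      · rw [Multiset.sum_add, hs.2.2, h1.2.2, add_zero]
      · rw [ob_eq.mpr (D.join s _ hs h1), ob_tensor, ob_tensor, h2, ob_tens, ob_tens,
          List.map_cons, List.map_cons, List.prod_cons, List.length_cons, Nat.add_sub_cancel]
        obtain ⟨r, hr⟩ : ∃ r, E.length = r + 1 := ⟨E.length - 1, by omega⟩
        rw [hr, Nat.add_sub_cancel, pow_succ']
        rw [mul_left_comm (ob (D.V s)), ← mul_assoc, ← mul_assoc]

/-- isomorphic objects have the same zero cycles -/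
lemma zero_of_ob {A B X : 𝒞} (h : ob A = ob B) (hB : ∀ z : X ⟶ B, z = 0) (z : X ⟶ A) : z = 0 := by
  obtain ⟨e⟩ := ob_eq.mp h
  have h1 : z = (z ≫ e.hom) ≫ e.inv := by simp
  rw [h1, hB (z ≫ e.hom), Limits.zero_comp]

/-- **The lines have no cycles of small codimension.** -/
theorem line_zero [BraidedCategory 𝒞] (hd : 0 < d) (D : FermatMotives d 𝒞) {n i : ℕ}
    (hi : 2 * i < n) (hdi : d * i < n + 2 + d) {s : Multiset (ZMod d)} (hs : IsCharacter d s)
    (hcard : Multiset.card s = n + 2) (z : pow D.L (n - i) ⟶ D.V s) : z = 0 := by
  have : NeZero d := ⟨hd.ne'⟩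
  obtain ⟨E, hE1, hE2, hE3, hE4⟩ := exists_blocks (n + 2) s hcard hs.2.1 hs.2.2
  have hne : E ≠ [] := by
    rintro rfl
    simp at hE3
  have hlen : 1 ≤ E.length := List.length_pos_iff.mpr hne
  have hk : i ≤ E.length := by
    by_contra h
    push Not at h
    have h1 : d * (E.length + 1) ≤ d * i := Nat.mul_le_mul_left _ h
    rw [mul_add, mul_one] at h1
    omega
  obtain ⟨_, h2⟩ := ob_blocks D E hE1 hne
  rw [← hE2] at h2
  refine zero_of_ob (B := pow D.L (E.length - 1) ⊗ tens (E.map D.V)) ?_
    (D.cycles (n - i) (E.length - 1) E hE1 ?_) z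
  · rw [h2, ob_tensor, ob_pow]
  · omega

end proof

/-- **Hartshorne's conjecture for Fermat hypersurfaces in small codimension.** -/
theorem result (d n i : ℕ) (hd : 0 < d) (hi : 2 * i < n) (hdi : d * i < n + 2 + d)
    {𝒞 : Type u} [Category.{v} 𝒞] [Preadditive 𝒞] [MonoidalCategory 𝒞] [BraidedCategory 𝒞]
    (D : FermatMotives d 𝒞) (X : 𝒞) (B : Decomposition D n X) (z : pow D.L (n - i) ⟶ X) :
    ∃ x : pow D.L (n - i) ⟶ pow D.L (n - i), z = x ≫ B.q ⟨n - i, by omega⟩ := by
  refine ⟨z ≫ B.p ⟨n - i, by omega⟩, ?_⟩
  conv_lhs => rw [← Category.comp_id z, B.id]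
  rw [Preadditive.comp_add, Preadditive.comp_sum, Preadditive.comp_sum,
    Finset.sum_eq_single (⟨n - i, by omega⟩ : Fin (n + 1)), Finset.sum_eq_zero, add_zero,
    Category.assoc]
  · intro j _
    rw [← Category.assoc, line_zero hd D hi hdi (B.char j) (B.card j) (z ≫ B.π j),
      Limits.zero_comp]
  · intro k _ hk
    rw [← Category.assoc, D.point (n - i) k (fun h => hk (Fin.ext h.symm)) (z ≫ B.p k),
      Limits.zero_comp]
  · intro h
    exact absurd (Finset.mem_univ _) h

end Pool.Agent.Results.MP_4be043_ag.FermatHypersurfaces
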